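import Pool.Agent.Lib.MP_305fdd_al.Su.RS.Step

/-!
# MP_305fdd_al, closed surface groups, relative S-machine: NSG

`nsgH`: for a minimal splitting in which `H0` is elliptic, the localised ring of the traces of the
vertex groups has no nontrivial valuation which is `≤ 0` on the ring and `≥ 0` on the traces of `H0` (in
particular none which is trivial on the field of the traces of `H0`).
-/

set_option autoImplicit false
set_option linter.unusedSectionVars false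

namespace Pool.Agent.SuRS

open Matrix (SpecialLinearGroup)
open Pool.Agent.FrN Pool.Agent.FrAsm Pool.Agent.F2Ch Pool.Agent.FrS Pool.Agent.SuX Pool.Agent.SuS

section

variable {Γ K F : Type} [Group Γ] [Field K] [Field F] [Algebra (ZMod 2) K]
  [Algebra (ZMod 2) F] [Algebra K F] {T : Γ → K} {ρ : Γ →* SpecialLinearGroup (Fin 2) F}
  {x : K → ℝ}

/-- the traces of `H0` lie in the ring of the traces of the vertex groups -/
theorem AdmH.mem (H : TrD T ρ) {H0 : Subgroup Γ} {S : GG Γ} (hS : AdmH H0 S) {c : Γ}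
    (hc : c ∈ H0) : T c ∈ BV T S := by
  obtain ⟨-, v, g, hg⟩ := hS
  rw [← T_cj H g c]
  exact mem_BV (v := v) (hg c hc)

/-- CASE A: all edge groups have non-negative values. -/
theorem nsgH_A (H : Sc Γ K F T ρ) {H0 : Subgroup Γ} (hH0 : H0.FG) {S : GG Γ}
    (hS : SminH ρ H0 S) (hx : IsV x) (hle : ∀ z ∈ BV T S, z ≠ 0 → x z ≤ 0)
    (hH : ∀ c ∈ H0, 0 ≤ x (T c))
    (hel : ∀ e, ∀ c ∈ S.C e, 0 ≤ x (T c)) {v : S.V} {g : Γ} (hg : g ∈ S.G v)
    (hneg : x (T g) < 0) : False := by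
  classical
  have hadm : S.Adm := hS.1.1
  have hna : S.NA v := by
    by_contra hv
    exact absurd (ab_vertex H hadm hx hel hv hg) (not_le.2 hneg)
  have hT : ∀ g, tr ρ g = 0 → g = 1 := fun g hg => H.div g hg
  have hsub : Algebra.adjoin (ZMod 2) (T '' (S.G v : Set Γ)) ≤ BV T S :=
    Algebra.adjoin_mono (Set.image_mono fun z hz => ⟨v, hz⟩)
  obtain ⟨v0, g0, hell⟩ := hS.1.2
  -- the conjugate of `H0` in the vertex group at `v`
  obtain ⟨H', hH'v, hH'fg, hH'x, hH'⟩ : ∃ H' : Subgroup Γ, H' ≤ S.G v ∧ H'.FG ∧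
      (∀ c ∈ H', 0 ≤ x (T c)) ∧ (v0 = v → ∀ c ∈ H0, g0⁻¹ * c * g0 ∈ H') := by
    by_cases hv : v0 = v
    · subst hv
      refine ⟨H0.map (MulAut.conj g0⁻¹).toMonoidHom, ?_, ?_, ?_, ?_⟩
      · rintro _ ⟨c, hc, rfl⟩
        change g0⁻¹ * c * g0⁻¹⁻¹ ∈ _
        rw [inv_inv]
        exact hell c hc
      · obtain ⟨X, hX⟩ := hH0
        refine ⟨X.image (MulAut.conj g0⁻¹), ?_⟩
        rw [← hX, MonoidHom.map_closure]
        congr 1
        rw [Finset.coe_image]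
        rfl
      · rintro _ ⟨c, hc, rfl⟩
        change 0 ≤ x (T (g0⁻¹ * c * g0⁻¹⁻¹))
        rw [inv_inv, T_cj H.tr]
        exact hH c hc
      · intro _ c hc
        refine ⟨c, hc, ?_⟩
        change g0⁻¹ * c * g0⁻¹⁻¹ = _
        rw [inv_inv]
    · refine ⟨⊥, bot_le, ⟨∅, by simp⟩, ?_, fun h => absurd h hv⟩
      intro c hc
      rw [Subgroup.mem_bot.1 hc]
      exact one_nonneg H.tr hx
  have hout : FrV.Out ρ (S.G v) (fun o : Option (S.E × Bool) => o.elim H' (S.inc v)) := by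
    refine p_VG Γ K F (Option (S.E × Bool)) T ρ (S.G v) _ x (fun g _ => H.tr g) ?_
      (hadm.fgV v) (fun h => hna h) ?_ ?_ hx
      (fun z hz hz0 => hle z (hsub hz) hz0) ⟨T g, Algebra.subset_adjoin ⟨g, hg, rfl⟩, hneg.ne⟩ ?_
    · intro g _ h0
      apply hT g
      unfold tr
      rw [H.tr, h0, map_zero]
    · rintro (_ | i)
      · exact hH'v
      · exact S.inc_le v i
    · rintro (_ | i)
      · exact hH'fg
      · exact GG.inc_fg hadm.fgE v i
    · rintro (_ | ⟨e, p⟩) c hc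
      · exact hH'x c hc
      · change c ∈ S.inc v (e, p) at hc
        cases p with
        | true =>
          by_cases h : S.b e = v
          · rw [GG.inc_true h] at hc
            have hc' : S.s e * c * (S.s e)⁻¹ ∈ S.C e := hc
            have h1 := hel e _ hc'
            rwa [TrD.conj H.tr] at h1
          · rw [GG.inc_true' h] at hc
            rw [Subgroup.mem_bot.1 hc]
            exact one_nonneg H.tr hx
        | false =>
          by_cases h : S.a e = v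
          · rw [GG.inc_false h] at hc
            exact hel e c hc
          · rw [GG.inc_false' h] at hc
            rw [Subgroup.mem_bot.1 hc]
            exact one_nonneg H.tr hx
  obtain ⟨S', hS', hlt, hw, w1, g1, h1⟩ := step_rel H.wv hT (er_univ H) H.fi hadm hna H' hout
  have hadm' : AdmH H0 S' := by
    refine ⟨hS', ?_⟩
    by_cases hv : v0 = v
    · refine ⟨w1, g0 * g1, fun c hc => ?_⟩
      have h2 := h1 _ (hH' hv c hc)
      have h3 : (g0 * g1)⁻¹ * c * (g0 * g1) = g1⁻¹ * (g0⁻¹ * c * g0) * g1 := by group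
      rw [h3]
      exact h2
    · obtain ⟨w', hw'⟩ := hw v0 hv
      exact ⟨w', g0, fun c hc => hw' (hell c hc)⟩
  rcases hS.2 S' hadm' with h | ⟨h, _⟩
  · exact absurd hlt (not_lt.2 h.le)
  · exact absurd hlt (not_lt.2 h.le)

/-- NSG, relative form, for a valuation of the trace field. -/
theorem nsgH_K (H : Sc Γ K F T ρ) {H0 : Subgroup Γ} (hH0 : H0.FG) {S : GG Γ}
    (hS : SminH ρ H0 S) (hx : IsV x) (hle : ∀ z ∈ BV T S, z ≠ 0 → x z ≤ 0)
    (hH : ∀ c ∈ H0, 0 ≤ x (T c))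
    (hcyc : ∀ e, Cyc S e → ∀ c ∈ S.C e, 0 ≤ x (T c)) {v : S.V} {g : Γ} (hg : g ∈ S.G v)
    (hneg : x (T g) < 0) : False := by
  by_cases hel : ∀ e, ∀ c ∈ S.C e, 0 ≤ x (T c)
  · exact nsgH_A H hH0 hS hx hle hH hel hg hneg
  · push Not at hel
    obtain ⟨e, c, hc, hlt⟩ := hel
    have hfg := H.fg
    obtain ⟨y, hy, hyx⟩ := exists_ext_frc (K₀ := K) (FrRoq.OO_fg ρ hfg) H.fracF hx
    have hyT : ∀ g, y (tr ρ g) = x (T g) := by
      intro g
      unfold tr
      rw [H.tr, hyx]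
    have hnc : ∃ a z : Γ, a * z ≠ z * a := by
      by_contra hcon
      push Not at hcon
      exact H.nab hcon
    have htr : ∀ g, FrR.tr (ρ g) = tr ρ g := fun g => (Matrix.trace_fin_two (ρ g).1).symm
    have h := case_b H.lx H.fg H.fracF H.inj hnc H.div hS.1.1 ⟨y, hy⟩
      (fun v g hg _ => by
        show y (FrR.tr (ρ g)) ≤ 0
        rw [htr, hyT]
        by_cases h0 : T g = 0
        · rw [h0, hx.zero]
        · exact hle _ (Algebra.subset_adjoin ⟨g, ⟨v, hg⟩, rfl⟩) h0)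
      (fun e he c hc => by
        show 0 ≤ y (FrR.tr (ρ c))
        rw [htr, hyT]
        exact hcyc e he c hc) e c hc
    have h' : 0 ≤ y (FrR.tr (ρ c)) := h
    rw [htr, hyT] at h'
    exact absurd hlt (not_lt.2 h')

/-- NSG, relative form: there is no nontrivial valuation which is `≤ 0` on the localised ring of the
traces of the vertex groups of a minimal splitting and `≥ 0` on the traces of `H0`. -/
theorem nsgH_gen (H : Sc Γ K F T ρ) {H0 : Subgroup Γ} (hH0 : H0.FG) {S : GG Γ}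
    (hS : SminH ρ H0 S) {y : K} (hyB : y ∈ BV T S) (hy0 : y ≠ 0)
    (hsafe : ∀ x : K → ℝ, IsV x → (∀ z ∈ BV T S, z ≠ 0 → x z ≤ 0) → x y = 0 →
      ∀ e, Cyc S e → ∀ c ∈ S.C e, 0 ≤ x (T c)) :
    ¬ ∃ x : KV T S → ℝ, IsV x ∧ (∃ z, x z ≠ 0) ∧ (∀ z ∈ BVy T S y, z ≠ 0 → x z ≤ 0) ∧
      ∀ c ∈ H0, ∀ h : T c ∈ KV T S, 0 ≤ x ⟨T c, h⟩ := by
  rintro ⟨x₀, hx₀, ⟨z, hz⟩, hle₀, hH₀⟩
  have hK := H.tr.BB_fg H.fg
  obtain ⟨x, hx, hxx⟩ := exists_ext_frc (K₀ := KV T S) (F := K) hK H.fracK hx₀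
  have h1 : BV T S ≤ (KV T S).toSubalgebra := IntermediateField.algebra_adjoin_le_adjoin _ _
  have hle : ∀ z ∈ ly (BV T S) y, z ≠ 0 → x z ≤ 0 := by
    intro z hz hz0
    have h2 : z ∈ (KV T S).toSubalgebra := ly_le_KV hyB hz
    have h3 := hle₀ ⟨z, h2⟩ hz (fun h => hz0 (congrArg Subtype.val h))
    have h4 := hxx ⟨z, h2⟩
    change x z = _ at h4
    rw [h4]
    exact h3
  have hle' : ∀ z ∈ BV T S, z ≠ 0 → x z ≤ 0 := fun z hz => hle z (le_ly _ _ hz)
  have hH : ∀ c ∈ H0, 0 ≤ x (T c) := by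
    intro c hc
    have h2 : T c ∈ (KV T S).toSubalgebra := h1 (hS.1.mem H.tr hc)
    have h4 := hxx ⟨T c, h2⟩
    change x (T c) = _ at h4
    rw [h4]
    exact hH₀ c hc h2
  have hyv : x y = 0 := by
    have h2 := hle y (le_ly _ _ hyB) hy0
    have h3 := hle y⁻¹ (Algebra.subset_adjoin (Set.mem_insert _ _)) (inv_ne_zero hy0)
    rw [FrP.V_inv hx hy0] at h3
    linarith
  have hcyc := hsafe x hx hle' hyv
  -- some trace has a negative value
  have hneg : ∃ v, ∃ g ∈ S.G v, x (T g) < 0 := by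
    by_contra hcon
    push Not at hcon
    have h2 : ∀ a ∈ BV T S, a = 0 ∨ 0 ≤ x a := by
      refine FrV.nonneg_adjoin hx (FrV.triv_two hx) _ ?_
      rintro _ ⟨g, ⟨v, hg⟩, rfl⟩
      exact Or.inr (hcon v g hg)
    have h3 : ∀ a ∈ BV T S, x a = 0 := by
      intro a ha
      by_cases h0 : a = 0
      · rw [h0, hx.zero]
      · exact le_antisymm (hle' a ha h0) ((h2 a ha).resolve_left h0)
    obtain ⟨r, hr, s, hs, hrs⟩ := IntermediateField.mem_adjoin_iff_div.mp z.2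
    apply hz
    rw [← hxx z]
    change x z.1 = 0
    rw [hrs]
    by_cases h0 : s = 0
    · rw [h0, div_zero, hx.zero]
    by_cases h0' : r = 0
    · rw [h0', zero_div, hx.zero]
    rw [div_eq_mul_inv, hx.mul _ _ h0' (inv_ne_zero h0), FrP.V_inv hx h0, h3 r hr, h3 s hs]
    simp
  obtain ⟨v, g, hg, hlt⟩ := hneg
  exact nsgH_K H hH0 hS hx hle' hH hcyc hg hlt

/-- NSG, relative form, for the product of safe elements -/
theorem nsgH (H : Sc Γ K F T ρ) {H0 : Subgroup Γ} (hH0 : H0.FG) {S : GG Γ}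
    (hS : SminH ρ H0 S) {y : K} (hy : SafeProd T S y) :
    ¬ ∃ x : KV T S → ℝ, IsV x ∧ (∃ z, x z ≠ 0) ∧ (∀ z ∈ BVy T S y, z ≠ 0 → x z ≤ 0) ∧
      ∀ c ∈ H0, ∀ h : T c ∈ KV T S, 0 ≤ x ⟨T c, h⟩ := by
  refine nsgH_gen H hH0 hS hy.mem (safeProd_ne H hS.1.1 hy) ?_
  intro x hx hle hxy
  obtain ⟨f, hf1, hf2, rfl⟩ := hy
  have hf0 : ∀ e, f e ≠ 0 := by
    intro e
    by_cases he : Cyc S e
    · exact safeEl_ne H hS.1.1 (hf1 e he)
    · rw [hf2 e he]
      exact one_ne_zero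
  have hfB : ∀ e, f e ∈ BV T S := by
    intro e
    by_cases he : Cyc S e
    · exact (hf1 e he).mem
    · rw [hf2 e he]
      exact one_mem _
  intro e he
  exact safe_nonneg H.tr hx (hf1 e he) (prod_zero hx hle f hfB hf0 hxy e)

/-- NSG, relative form, for the product of the traces of generators of the cyclic edge groups -/
theorem nsgH_tr (H : Sc Γ K F T ρ) {H0 : Subgroup Γ} (hH0 : H0.FG) {S : GG Γ}
    (hS : SminH ρ H0 S) {y : K} (hy : TrProd T S y) :
    ¬ ∃ x : KV T S → ℝ, IsV x ∧ (∃ z, x z ≠ 0) ∧ (∀ z ∈ BVy T S y, z ≠ 0 → x z ≤ 0) ∧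
      ∀ c ∈ H0, ∀ h : T c ∈ KV T S, 0 ≤ x ⟨T c, h⟩ := by
  refine nsgH_gen H hH0 hS hy.mem (trProd_ne H hS.1.1 hy) ?_
  intro x hx hle hxy
  obtain ⟨f, hf1, hf2, rfl⟩ := hy
  have hf : ∀ e, f e ∈ BV T S ∧ f e ≠ 0 := by
    intro e
    by_cases he : Cyc S e
    · obtain ⟨z, hz, hf⟩ := hf1 e he
      rw [hf]
      refine ⟨mem_BV (v := S.a e) (S.Ca e (by rw [hz]; exact Subgroup.mem_zpowers z)), ?_⟩
      refine T_ne H fun h => hS.1.1.ne e ?_
      rw [hz, h, Subgroup.zpowers_one_eq_bot]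
    · rw [hf2 e he]
      exact ⟨one_mem _, one_ne_zero⟩
  intro e he c hc
  obtain ⟨z, hz, hfz⟩ := hf1 e he
  have h1 := prod_zero hx hle f (fun e => (hf e).1) (fun e => (hf e).2) hxy e
  rw [hfz] at h1
  rw [hz] at hc
  exact zpowers_nonneg H.tr hx h1.ge hc

end

end Pool.Agent.SuRS
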