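import Mathlib

/-!
# MP_305fdd_al, closed surface groups, relative S-machine: Serre's lemma

Elements `w` of a group which acts on a tree, such that all `w` and all products of two of them have
fixed points, have a common fixed point.
-/

set_option autoImplicit false
set_option linter.deprecated false

namespace Pool.Agent.SuRS

open SimpleGraph

section

variable {G V : Type} [Group G] [MulAction G V] {X : SimpleGraph V}

/-- the action of an element -/
def actHom (X : SimpleGraph V)
    (hadj : ∀ (g : G) (x y : V), X.Adj x y → X.Adj (g • x) (g • y)) (g : G) : X →g X :=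
  ⟨fun x => g • x, fun {_ _} h => hadj g _ _ h⟩

theorem path_len (hT : X.IsTree) {a b : V} (p : X.Walk a b) (hp : p.IsPath) :
    p.length = X.dist a b := by
  obtain ⟨q, hq⟩ := hT.connected.exists_walk_length_eq_dist a b
  have hqp : q.IsPath := q.isPath_of_length_eq_dist hq
  have h := hT.isAcyclic.path_unique ⟨p, hp⟩ ⟨q, hqp⟩
  have h' : p = q := congrArg Subtype.val h
  rw [h', hq]

theorem path_fix (hT : X.IsTree)
    (hadj : ∀ (g : G) (x y : V), X.Adj x y → X.Adj (g • x) (g • y)) (g : G)
    {a b : V} (p : X.Walk a b) (hp : p.IsPath) (ha : g • a = a) (hb : g • b = b) :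
    ∀ v ∈ p.support, g • v = v := by
  intro v hv
  have hinj : Function.Injective (actHom X hadj g) := MulAction.injective g
  have h1 : (p.map (actHom X hadj g)).IsPath := Walk.map_isPath_of_injective hinj hp
  have ha' : actHom X hadj g a = a := ha
  have hb' : actHom X hadj g b = b := hb
  have h2 : ((p.map (actHom X hadj g)).copy ha' hb').IsPath := by
    rw [Walk.isPath_copy]; exact h1
  have h3 : (p.map (actHom X hadj g)).copy ha' hb' = p :=
    congrArg Subtype.val (hT.isAcyclic.path_unique ⟨_, h2⟩ ⟨p, hp⟩)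
  have h4 : p.support.map (actHom X hadj g) = p.support := by
    have h := congrArg Walk.support h3
    rwa [Walk.support_copy, Walk.support_map] at h
  have h5 := List.map_inj_left.1 (h4.trans (List.map_id _).symm) v hv
  exact h5

theorem dist_le' (hT : X.IsTree)
    (hadj : ∀ (g : G) (x y : V), X.Adj x y → X.Adj (g • x) (g • y)) (g : G)
    (a b : V) : X.dist (g • a) (g • b) ≤ X.dist a b := by
  obtain ⟨q, hq⟩ := hT.connected.exists_walk_length_eq_dist a b
  have h := dist_le (q.map (actHom X hadj g))
  rw [Walk.length_map, hq] at h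
  exact h

theorem dist_smul (hT : X.IsTree)
    (hadj : ∀ (g : G) (x y : V), X.Adj x y → X.Adj (g • x) (g • y)) (g : G)
    (a b : V) : X.dist (g • a) (g • b) = X.dist a b := by
  refine le_antisymm (dist_le' hT hadj g a b) ?_
  have h := dist_le' hT hadj g⁻¹ (g • a) (g • b)
  rwa [inv_smul_smul, inv_smul_smul] at h

/-- a vertex of a path is between the ends -/
theorem dist_add (hT : X.IsTree) {a b : V} (p : X.Walk a b) (hp : p.IsPath) {c : V}
    (hc : c ∈ p.support) : X.dist a c + X.dist c b = X.dist a b := by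
  classical
  rw [← path_len hT (p.takeUntil c hc) (hp.takeUntil hc),
    ← path_len hT (p.dropUntil c hc) (hp.dropUntil hc), ← path_len hT p hp,
    ← Walk.length_append, Walk.take_spec]

/-- the vertices of a path are determined by the distance to the first end -/
theorem path_inj (hT : X.IsTree) {a b : V} (p : X.Walk a b) (hp : p.IsPath) {c c' : V}
    (hc : c ∈ p.support) (hc' : c' ∈ p.support) (h : X.dist a c = X.dist a c') : c = c' := by
  classical
  have h1 := path_len hT (p.takeUntil c hc) (hp.takeUntil hc)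
  have h2 := path_len hT (p.takeUntil c' hc') (hp.takeUntil hc')
  have h3 := p.getVert_length_takeUntil hc
  have h4 := p.getVert_length_takeUntil hc'
  rw [← h3, ← h4, h1, h2, h]

/-- two paths which meet only at the common end -/
theorem join_path {y z p : V} (P : X.Walk y z) (hP : P.IsPath) (Q : X.Walk z p)
    (hQ : Q.IsPath) (h : ∀ a ∈ P.support, a ∈ Q.support → a = z) : (P.append Q).IsPath := by
  rw [Walk.isPath_def, Walk.support_append, List.nodup_append]
  refine ⟨hP.support_nodup, hQ.support_nodup.tail, ?_⟩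
  intro a ha b hb hab
  subst hab
  have h1 := h a ha (List.mem_of_mem_tail hb)
  subst h1
  have h5 := hQ.support_nodup
  rw [Walk.support_eq_cons] at h5
  exact (List.nodup_cons.1 h5).1 hb

/-- a nearest vertex -/
theorem exists_near (X : SimpleGraph V) (P : V → Prop) (hP : ∃ z, P z) (p : V) :
    ∃ z, P z ∧ ∀ z', P z' → X.dist p z ≤ X.dist p z' := by
  classical
  obtain ⟨z0, hz0⟩ := hP
  have hex : ∃ k : ℕ, ∃ z : V, P z ∧ X.dist p z = k := ⟨_, z0, hz0, rfl⟩
  obtain ⟨z, hz, hzk⟩ := Nat.find_spec hex
  refine ⟨z, hz, fun z' hz' => ?_⟩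
  rw [hzk]
  exact Nat.find_min' hex ⟨z', hz', rfl⟩

/-- the middle of the path from `p` to `b p` is fixed by `b` -/
theorem mid (hT : X.IsTree)
    (hadj : ∀ (g : G) (x y : V), X.Adj x y → X.Adj (g • x) (g • y)) (b : G) (hb : ∃ z : V, b • z = z)
    (p : V) : ∃ (z : V) (R : X.Walk p (b • p)), R.IsPath ∧ z ∈ R.support ∧ b • z = z ∧
      X.dist p (b • p) = 2 * X.dist p z := by
  obtain ⟨z, hz, hmin⟩ := exists_near X (fun z => b • z = z) hb p
  obtain ⟨P, hP⟩ := (hT.existsUnique_path z p).exists
  let Q0 : X.Walk (b • z) (b • p) := P.map (actHom X hadj b)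
  have hQ0 : Q0.IsPath := Walk.map_isPath_of_injective (MulAction.injective b) hP
  let Q : X.Walk z (b • p) := Q0.copy hz rfl
  have hQ : Q.IsPath := by rw [Walk.isPath_copy]; exact hQ0
  have hR : (P.reverse.append Q).IsPath := by
    refine join_path _ hP.reverse _ hQ ?_
    intro a ha ha'
    rw [Walk.support_reverse, List.mem_reverse] at ha
    rw [Walk.support_copy] at ha'
    have ha2 : a ∈ (P.map (actHom X hadj b)).support := ha'
    rw [Walk.support_map, List.mem_map] at ha2
    clear ha'
    obtain ⟨a', ha', rfl⟩ := ha2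
    have h1 : X.dist z (b • a') = X.dist z a' := by
      have h2 := dist_smul hT hadj b z a'
      rwa [hz] at h2
    have h2 : b • a' = a' := path_inj hT P hP ha ha' h1
    have h3 : actHom X hadj b a' = a' := h2
    rw [h3]
    have h4 := hmin a' h2
    have h5 := dist_add hT P hP ha'
    rw [dist_comm (u := z) (v := p), dist_comm (u := a') (v := p)] at h5
    have h6 : X.dist z a' = 0 := by omega
    exact ((hT.connected.dist_eq_zero_iff).1 h6).symm
  refine ⟨z, P.reverse.append Q, hR, ?_, hz, ?_⟩
  · rw [Walk.mem_support_append_iff]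
    exact Or.inl (Walk.end_mem_support _)
  · have h1 := path_len hT _ hR
    have h2 : Q0.length = P.length := Walk.length_map _ _
    rw [Walk.length_append, Walk.length_reverse, Walk.length_copy, h2,
      path_len hT P hP, dist_comm (u := z) (v := p)] at h1
    rw [← h1]
    ring

/-- two elements -/
theorem fix_two (hT : X.IsTree)
    (hadj : ∀ (g : G) (x y : V), X.Adj x y → X.Adj (g • x) (g • y)) (a b : G)
    (ha : ∃ z : V, a • z = z) (hb : ∃ z : V, b • z = z) (hab : ∃ z : V, (a * b) • z = z) :
    ∃ z : V, a • z = z ∧ b • z = z := by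
  obtain ⟨p, hp⟩ := hab
  have hq : a⁻¹ • p = b • p := by
    rw [inv_smul_eq_iff, smul_smul]
    exact hp.symm
  have ha' : ∃ z : V, a⁻¹ • z = z := by
    obtain ⟨z, hz⟩ := ha
    exact ⟨z, by rw [inv_smul_eq_iff]; exact hz.symm⟩
  obtain ⟨z, R, hR, hzR, hz, hd⟩ := mid hT hadj b hb p
  obtain ⟨z', R', hR', hzR', hz', hd'⟩ := mid hT hadj a⁻¹ ha' p
  have h1 : (R'.copy rfl hq).IsPath := by rw [Walk.isPath_copy]; exact hR'
  have h2 : R'.copy rfl hq = R := congrArg Subtype.val (hT.isAcyclic.path_unique ⟨_, h1⟩ ⟨R, hR⟩)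
  have h3 : z' ∈ R.support := by
    rw [← h2, Walk.support_copy]
    exact hzR'
  rw [hq] at hd'
  have h4 : z = z' := path_inj hT R hR hzR h3 (by omega)
  refine ⟨z, ?_, hz⟩
  rw [h4]
  exact (inv_smul_eq_iff.1 hz').symm

/-- SERRE'S LEMMA -/
theorem serre (hT : X.IsTree)
    (hadj : ∀ (g : G) (x y : V), X.Adj x y → X.Adj (g • x) (g • y)) (l : List G)
    (h1 : ∀ a ∈ l, ∃ z : V, a • z = z) (h2 : ∀ a ∈ l, ∀ b ∈ l, ∃ z : V, (a * b) • z = z) :
    ∃ z : V, ∀ a ∈ l, a • z = z := by
  induction l with
  | nil =>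
    obtain ⟨x⟩ := hT.connected.nonempty
    exact ⟨x, fun a ha => by simp at ha⟩
  | cons w l ih =>
    have hF := ih (fun a ha => h1 a (List.mem_cons_of_mem _ ha))
      (fun a ha b hb => h2 a (List.mem_cons_of_mem _ ha) b (List.mem_cons_of_mem _ hb))
    -- the nearest pair
    obtain ⟨z0, hz0⟩ := h1 w List.mem_cons_self
    obtain ⟨y, z, hy, hz, hmin⟩ : ∃ y z : V, (∀ a ∈ l, a • y = y) ∧ w • z = z ∧
        ∀ y' z' : V, (∀ a ∈ l, a • y' = y') → w • z' = z' → X.dist y z ≤ X.dist y' z' := by
      classical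
      obtain ⟨y0, hy0⟩ := hF
      have hex : ∃ k : ℕ, ∃ y z : V, (∀ a ∈ l, a • y = y) ∧ w • z = z ∧ X.dist y z = k :=
        ⟨_, y0, z0, hy0, hz0, rfl⟩
      obtain ⟨y, z, hy, hz, hk⟩ := Nat.find_spec hex
      refine ⟨y, z, hy, hz, fun y' z' hy' hz' => ?_⟩
      rw [hk]
      exact Nat.find_min' hex ⟨y', z', hy', hz', rfl⟩
    by_cases hyz : y = z
    · refine ⟨y, fun a ha => ?_⟩
      rcases List.mem_cons.1 ha with rfl | ha
      · rw [hyz]; exact hz
      · exact hy a ha
    exfalso
    obtain ⟨P, hP⟩ := (hT.existsUnique_path y z).exists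
    -- the second vertex of the path
    have hlen : 0 < P.length := by
      rw [path_len hT P hP]
      exact Nat.pos_of_ne_zero fun h => hyz ((hT.connected.dist_eq_zero_iff).1 h)
    have hy1 : P.getVert 1 ∈ P.support := P.getVert_mem_support 1
    have hd1 : X.dist y (P.getVert 1) = 1 := by
      rw [dist_eq_one_iff_adj]
      have h3 := P.adj_getVert_succ (i := 0) hlen
      rwa [Walk.getVert_zero] at h3
    have hnot : ¬ ∀ a ∈ l, a • P.getVert 1 = P.getVert 1 := by
      intro h3
      have h4 := hmin _ z h3 hz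
      have h5 := dist_add hT P hP hy1
      omega
    push Not at hnot
    obtain ⟨a, ha, ha1⟩ := hnot
    obtain ⟨p, hap, hwp⟩ := fix_two hT hadj a w (h1 a (List.mem_cons_of_mem _ ha))
      (h1 w List.mem_cons_self) (h2 a (List.mem_cons_of_mem _ ha) w List.mem_cons_self)
    obtain ⟨Q, hQ⟩ := (hT.existsUnique_path z p).exists
    have hR : (P.append Q).IsPath := by
      refine join_path P hP Q hQ ?_
      intro c hc hc'
      have h3 : w • c = c := path_fix hT hadj w Q hQ hz hwp c hc'
      have h4 := hmin y c hy h3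
      have h5 := dist_add hT P hP hc
      have h6 : X.dist c z = 0 := by omega
      exact (hT.connected.dist_eq_zero_iff).1 h6
    apply ha1
    refine path_fix hT hadj a _ hR (hy a ha) hap _ ?_
    rw [Walk.mem_support_append_iff]
    exact Or.inl hy1

end

end Pool.Agent.SuRS
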