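import Pool.Agent.Lib.MP_305fdd_al.Fr.V.Fin
import Pool.Agent.Lib.MP_305fdd_al.Su.RS.Serre

/-!
# MP_305fdd_al, closed surface groups, relative S-machine: Theorem R for vertex groups relative to
arbitrary finitely generated subgroups

`FrV.S_V` without the hypothesis that the groups `I i` are commutative: Theorem R is applied to the
cyclic groups generated by the generators of `I i` and their products, and then Serre's lemma in the
tree.
-/

set_option autoImplicit false
set_option linter.unusedSectionVars false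

namespace Pool.Agent.SuRS

open Pool.Agent.FrN Pool.Agent.F2Ch Pool.Agent.FrS Pool.Agent.FrT Pool.Agent.FrV Matrix

/-- `FrV.S_V` for arbitrary finitely generated groups `I i` -/
def S_VG : Prop :=
  ∀ (Γ K F ι : Type) [Group Γ] [Field K] [Field F] [Algebra (ZMod 2) K] [Algebra (ZMod 2) F]
    [Algebra K F] [Finite ι] (T : Γ → K) (ρ : Γ →* SpecialLinearGroup (Fin 2) F)
    (P : Subgroup Γ) (I : ι → Subgroup Γ) (x : K → ℝ),
    (∀ g ∈ P, (ρ g).1.trace = algebraMap K F (T g)) → (∀ g ∈ P, T g = 0 → g = 1) →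
    P.FG → ¬ Cm P → (∀ i, I i ≤ P) → (∀ i, (I i).FG) →
    IsV x → (∀ b ∈ Algebra.adjoin (ZMod 2) (T '' P), b ≠ 0 → x b ≤ 0) →
    (∃ b ∈ Algebra.adjoin (ZMod 2) (T '' P), x b ≠ 0) → (∀ i, ∀ c ∈ I i, 0 ≤ x (T c)) →
    Out ρ P I

section

variable {Γ K F ι : Type} [Group Γ] [Field K] [Field F] [Algebra (ZMod 2) K]
    [Algebra (ZMod 2) F] [Algebra K F] {ρ : Γ →* SpecialLinearGroup (Fin 2) F}
    {P : Subgroup Γ} {T : P → K}

/-- THEOREM R FOR VERTEX GROUPS, the incident groups are not necessarily commutative -/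
theorem out_gen [Finite ι] (hR : FrR.S_R) (hA : FrR.S_fgA) (hH : FrR.S_fgH)
    (h : VG P K F T (ρ.comp P.subtype)) {x : K → ℝ} (hx : SGV T x) (I : ι → Subgroup Γ)
    (hIP : ∀ i, I i ≤ P) (hIfg : ∀ i, (I i).FG)
    (hI : ∀ i, ∀ c : P, (c : Γ) ∈ I i → 0 ≤ x (T c)) : Out ρ P I := by
  obtain ⟨L, _, _, _, r, S, V, hS, htr, hV, hinj, hSG⟩ := h.input hx
  have hinst := h.fg
  let E : ι → Subgroup P := fun i => (I i).subgroupOf P
  have hEfg : ∀ i, (E i).FG := by
    intro i
    have h1 : Group.FG (I i) := (Group.fg_iff_subgroup_fg _).2 (hIfg i)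
    have h2 : Group.FG ((I i).subgroupOf P) :=
      Group.fg_of_surjective (f := (Subgroup.subgroupOfEquivOfLe (hIP i)).symm.toMonoidHom)
        (Subgroup.subgroupOfEquivOfLe (hIP i)).symm.surjective
    exact (Group.fg_iff_subgroup_fg _).1 h2
  obtain ⟨G, _, n, π₀, R₀, q, -, hπ₀, hker, hq, hrep, -, -, -⟩ :=
    exists_cover P Empty (fun e => e.elim) (fun e => e.elim) (fun e => e.elim)
  -- generators and their lifts
  choose Sg hSg using hEfg
  choose lft hlft using hq
  let J : Type := (i : ι) × ((Sg i × Sg i) ⊕ Sg i)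
  let E' : J → Subgroup G := fun j => match j with
    | ⟨_, Sum.inl (a, b)⟩ => Subgroup.zpowers (lft a * lft b)
    | ⟨_, Sum.inr a⟩ => Subgroup.zpowers (lft a)
  have hSgE : ∀ i (a : Sg i), (a : P) ∈ E i := by
    intro i a
    rw [← hSg i]
    exact Subgroup.subset_closure a.2
  have hE'fg : ∀ j, (E' j).FG := by
    rintro ⟨i, ⟨a, b⟩ | a⟩
    · exact ⟨{lft a * lft b}, by rw [Finset.coe_singleton, ← Subgroup.zpowers_eq_closure]⟩
    · exact ⟨{lft a}, by rw [Finset.coe_singleton, ← Subgroup.zpowers_eq_closure]⟩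
  have hzcm : ∀ z : G, ∀ a ∈ Subgroup.zpowers z, ∀ b ∈ Subgroup.zpowers z, a * b = b * a := by
    rintro z _ ⟨m, rfl⟩ _ ⟨k, rfl⟩
    change z ^ m * z ^ k = z ^ k * z ^ m
    rw [← _root_.zpow_add, ← _root_.zpow_add, add_comm]
  have hE'cm : ∀ j, ∀ a ∈ E' j, ∀ b ∈ E' j, a * b = b * a := by
    rintro ⟨i, ⟨a, b⟩ | a⟩
    · exact hzcm _
    · exact hzcm _
  have hE'q : ∀ j, ∀ a ∈ E' j, q a ∈ E j.1 := by
    rintro ⟨i, ⟨a, b⟩ | a⟩
    · rintro _ ⟨m, rfl⟩
      change q ((lft a * lft b) ^ m) ∈ E i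
      rw [map_zpow, map_mul, hlft, hlft]
      exact zpow_mem (mul_mem (hSgE i a) (hSgE i b)) m
    · rintro _ ⟨m, rfl⟩
      change q ((lft a) ^ m) ∈ E i
      rw [map_zpow, hlft]
      exact zpow_mem (hSgE i a) m
  have hq : Function.Surjective q := fun a => ⟨lft a, hlft a⟩
  let D1 : Set K := T '' {c | ∃ i, (c : Γ) ∈ I i}
  have hD1 : ∀ c ∈ IntermediateField.adjoin (ZMod 2) D1, x c = 0 := by
    refine hx.triv ?_ ?_
    · rintro _ ⟨c, -, rfl⟩
      exact T_mem T c
    · rintro _ ⟨c, ⟨i, hc⟩, rfl⟩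
      exact Or.inr (hI i c hc)
  let k : Type := IntermediateField.adjoin (ZMod 2) D1
  let fk : Field k := inferInstanceAs (Field (IntermediateField.adjoin (ZMod 2) D1))
  let emb : k →+* L := (algebraMap K L).comp
    (algebraMap (IntermediateField.adjoin (ZMod 2) D1) K)
  let algk : Algebra k L := emb.toAlgebra
  have halgk : ∀ c : IntermediateField.adjoin (ZMod 2) D1, algebraMap k L c = algebraMap K L c :=
    fun c => rfl
  have htop : IntermediateField.adjoin k (S : Set L) = ⊤ := adjoin_top hS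
  have htriv : F2Ch.Triv k V.v := by
    intro c
    show V.v (algebraMap K L (c : IntermediateField.adjoin (ZMod 2) D1)) = 0
    rw [hV]
    exact hD1 _ (Subtype.property (c : IntermediateField.adjoin (ZMod 2) D1))
  have hle : (r.comp q).range ≤ r.range := by
    rintro _ ⟨g, rfl⟩
    exact ⟨q g, rfl⟩
  have hneg : ∃ g : G, FrR.tr ((r.comp q) g) ≠ 0 ∧ V.v (FrR.tr ((r.comp q) g)) < 0 := by
    obtain ⟨g, hg⟩ := h.exists_neg hx
    obtain ⟨g', rfl⟩ := hq g
    refine ⟨g', ?_, ?_⟩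
    · show FrR.tr (r (q g')) ≠ 0
      rw [htr, Ne, map_eq_zero]
      intro h0
      rw [h0, hx.isV.zero] at hg
      exact lt_irrefl _ hg
    · show V.v (FrR.tr (r (q g'))) < 0
      rw [htr, hV]
      exact hg
  have hge : ∀ j, ∀ a ∈ E' j, V.Ge 0 (FrR.tr ((r.comp q) a)) := by
    intro j a ha
    right
    show 0 ≤ V.v (FrR.tr (r (q a)))
    rw [htr, hV]
    exact hI j.1 (q a) (hE'q j a ha)
  obtain ⟨N, hN, W, hNW, hNker, Vt, act, X, hact, u, v, hX, huv, hinv, hSC, hSCcm, hu, hv, hell,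
    x', f, htriv', hequi, hfne, hmv⟩ := hR k L G J (Fin n) π₀ R₀ hπ₀ hker S htop V htriv (r.comp q)
      (hSG _ hle) hneg E' hE'fg hE'cm hge
  have hNq : N ≤ q.ker := by
    intro g hg
    have h1 : r (q g) = 1 := hNker hg
    rw [← map_one r] at h1
    exact hinj h1
  let qb : G ⧸ N →* P := QuotientGroup.lift N q hNq
  have hqb : ∀ g : G, qb (QuotientGroup.mk g) = q g := fun g => rfl
  let j : G ⧸ N →* Γ := P.subtype.comp qb
  have hjapp : ∀ g : G, j (QuotientGroup.mk g) = (q g : Γ) := fun g => rfl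
  have hjr : j.range = P := by
    ext γ
    constructor
    · rintro ⟨g, rfl⟩
      exact (qb g).2
    · intro hγ
      obtain ⟨g, hg⟩ := hq ⟨γ, hγ⟩
      exact ⟨QuotientGroup.mk g, by rw [hjapp, hg]⟩
  have hj : Fac j := by
    intro R _ _ s y hy
    obtain ⟨g, rfl⟩ := QuotientGroup.mk_surjective y
    have h1 : q g = 1 := by
      rw [MonoidHom.mem_ker, hjapp] at hy
      exact Subtype.ext hy
    have h2 : g ∈ (s.comp (QuotientGroup.mk' N)).ker := hrep R _ h1
    exact h2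
  have hGfg : Group.FG G := Group.fg_of_surjective (f := π₀) hπ₀
  have hGN : Group.FG (G ⧸ N) := inferInstance
  -- Serre's lemma
  have hser : ∀ i, ∃ p : Vt, ∀ c ∈ I i, ∃ a : G ⧸ N, j a = c ∧ a • p = p := by
    intro i
    obtain ⟨p, hp⟩ := serre (X := X) hX hact
      ((Sg i).toList.map fun a => (QuotientGroup.mk (lft a) : G ⧸ N)) (by
        intro b hb
        obtain ⟨a, ha, rfl⟩ := List.mem_map.1 hb
        obtain ⟨p, hp⟩ := hell ⟨i, Sum.inr ⟨a, Finset.mem_toList.1 ha⟩⟩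
        exact ⟨p, hp _ (Subgroup.mem_zpowers _)⟩) (by
        intro b hb b' hb'
        obtain ⟨a, ha, rfl⟩ := List.mem_map.1 hb
        obtain ⟨a', ha', rfl⟩ := List.mem_map.1 hb'
        obtain ⟨p, hp⟩ := hell ⟨i, Sum.inl (⟨a, Finset.mem_toList.1 ha⟩,
          ⟨a', Finset.mem_toList.1 ha'⟩)⟩
        exact ⟨p, hp _ (Subgroup.mem_zpowers _)⟩)
    refine ⟨p, fun c hc => ?_⟩
    have h1 : E i ≤ (MulAction.stabilizer (G ⧸ N) p).map qb := by
      rw [← hSg i, Subgroup.closure_le]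
      intro a ha
      refine ⟨QuotientGroup.mk (lft a), ?_, ?_⟩
      · exact hp _ (List.mem_map.2 ⟨a, Finset.mem_toList.2 ha, rfl⟩)
      · rw [hqb, hlft]
    obtain ⟨a, ha, hac⟩ := h1 (show (⟨c, hIP i hc⟩ : P) ∈ E i from hc)
    refine ⟨a, ?_, ha⟩
    have h2 := congrArg Subtype.val hac
    exact h2
  -- commutativity of the edge group
  have hDcm : Cm ((SC (G ⧸ N) u v).map j) := by
    rintro _ ⟨a, ha, rfl⟩ _ ⟨b, hb, rfl⟩
    obtain ⟨a, rfl⟩ := QuotientGroup.mk_surjective a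
    obtain ⟨b, rfl⟩ := QuotientGroup.mk_surjective b
    have h1 : r (q a) * r (q b) = r (q b) * r (q a) := hSCcm a b ha hb
    rw [← map_mul r, ← map_mul r] at h1
    have h2 := hinj h1
    rw [hjapp, hjapp]
    exact congrArg Subtype.val h2
  have hDfg : ((SC (G ⧸ N) u v).map j).FG := fg_map j hSC
  -- elements of the edge group fix the images of the ends
  have hfix : ∀ g : G, (QuotientGroup.mk g : G ⧸ N) ∈ SC (G ⧸ N) u v →
      r (q g) • f u = f u ∧ r (q g) • f v = f v := by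
    intro g hg
    have h1 := hequi g u
    have h2 := hequi g v
    rw [MulAction.mem_stabilizer_iff.1 hg.1] at h1
    rw [MulAction.mem_stabilizer_iff.1 hg.2] at h2
    exact ⟨h1.symm, h2.symm⟩
  rcases amalg_or_hnn hact (u := u) (v := v) with hno | ⟨t, ht⟩
  · left
    obtain ⟨fgA, fgB⟩ := fg_am hact hA hX hinv huv hno hSC
    obtain ⟨⟨bu, hbu, hbu'⟩, bv, hbv, hbv'⟩ := hmv hno
    have hAm := isAm hact j hj hX hinv huv hno
    rw [hjr] at hAm
    have hx'0 : ∀ c ∈ IntermediateField.adjoin (ZMod 2) D1, x'.v (algebraMap K L c) = 0 :=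
      fun c hc => htriv' (⟨c, hc⟩ : IntermediateField.adjoin (ZMod 2) D1)
    refine ⟨(Sst (u := u) (v := v) hact u).map j, (Sst (u := u) (v := v) hact v).map j,
      (SC (G ⧸ N) u v).map j, hAm, fg_map j fgA, fg_map j fgB, hDfg, hDcm, ?_, ?_, ?_, ?_, ?_⟩
    · intro hEq
      have h1 : j bu ∈ (SC (G ⧸ N) u v).map j := by
        rw [← hEq]
        exact ⟨bu, hbu, rfl⟩
      obtain ⟨c, hc, hcb⟩ := h1
      obtain ⟨c, rfl⟩ := QuotientGroup.mk_surjective c
      obtain ⟨bu, rfl⟩ := QuotientGroup.mk_surjective bu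
      rw [hjapp, hjapp] at hcb
      apply hbu'
      rw [hequi]
      show r (q bu) • f v = f v
      rw [← Subtype.ext hcb]
      exact (hfix c hc).2
    · intro hEq
      have h1 : j bv ∈ (SC (G ⧸ N) u v).map j := by
        rw [← hEq]
        exact ⟨bv, hbv, rfl⟩
      obtain ⟨c, hc, hcb⟩ := h1
      obtain ⟨c, rfl⟩ := QuotientGroup.mk_surjective c
      obtain ⟨bv, rfl⟩ := QuotientGroup.mk_surjective bv
      rw [hjapp, hjapp] at hcb
      apply hbv'
      rw [hequi]
      show r (q bv) • f u = f u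
      rw [← Subtype.ext hcb]
      exact (hfix c hc).1
    · intro i
      obtain ⟨p, hlift⟩ := hser i
      obtain ⟨g, hg⟩ := stab_conj hact (u := u) (v := v) hX p
      refine ⟨j g, by rw [← hjr]; exact ⟨g, rfl⟩, ?_⟩
      rcases hg with hg | hg
      · left
        intro c hc
        obtain ⟨a, rfl, ha⟩ := hlift c hc
        rw [← map_inv, ← map_mul, ← map_mul]
        exact ⟨_, hg a ha, rfl⟩
      · right
        intro c hc
        obtain ⟨a, rfl, ha⟩ := hlift c hc
        rw [← map_inv, ← map_mul, ← map_mul]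
        exact ⟨_, hg a ha, rfl⟩
    · intro hD hcm
      obtain ⟨_, ⟨z, hz, rfl⟩, hz1⟩ := (Subgroup.bot_or_exists_ne_one _).resolve_left hD
      obtain ⟨z, rfl⟩ := QuotientGroup.mk_surjective z
      obtain ⟨bu, rfl⟩ := QuotientGroup.mk_surjective bu
      rw [hjapp] at hz1
      have hzA : j (QuotientGroup.mk z) ∈ (Sst (u := u) (v := v) hact u).map j :=
        ⟨_, SC_le_u hact hz, rfl⟩
      have hbA : j (QuotientGroup.mk bu) ∈ (Sst (u := u) (v := v) hact u).map j :=
        ⟨_, hbu, rfl⟩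
      have hc := hcm _ hzA _ hbA
      rw [hjapp, hjapp] at hc
      have hmove : r (q bu) • f v ≠ f v := fun h1 => hbu' ((hequi bu v).trans h1)
      rcases VG.claim h I hIP r htr x' hx'0 (q z) (q bu) (fun h1 => hz1 (congrArg Subtype.val h1))
        (Subtype.ext hc) hfne.symm (hfix z hz).2 (hfix z hz).1 hmove with h1 | h1
      · exact ⟨_, hzA, h1⟩
      · exact ⟨_, hbA, h1⟩
    · intro hD hcm
      obtain ⟨_, ⟨z, hz, rfl⟩, hz1⟩ := (Subgroup.bot_or_exists_ne_one _).resolve_left hD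
      obtain ⟨z, rfl⟩ := QuotientGroup.mk_surjective z
      obtain ⟨bv, rfl⟩ := QuotientGroup.mk_surjective bv
      rw [hjapp] at hz1
      have hzA : j (QuotientGroup.mk z) ∈ (Sst (u := u) (v := v) hact v).map j :=
        ⟨_, SC_le_v hact hz, rfl⟩
      have hbA : j (QuotientGroup.mk bv) ∈ (Sst (u := u) (v := v) hact v).map j :=
        ⟨_, hbv, rfl⟩
      have hc := hcm _ hzA _ hbA
      rw [hjapp, hjapp] at hc
      have hmove : r (q bv) • f u ≠ f u := fun h1 => hbv' ((hequi bv u).trans h1)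
      rcases VG.claim h I hIP r htr x' hx'0 (q z) (q bv) (fun h1 => hz1 (congrArg Subtype.val h1))
        (Subtype.ext hc) hfne (hfix z hz).1 (hfix z hz).2 hmove with h1 | h1
      · exact ⟨_, hzA, h1⟩
      · exact ⟨_, hbA, h1⟩
  · right
    have fgA := fg_hn hact hH hX hinv huv t ht hSC
    have hHn := isHn hact j hj hX hinv huv t ht
    rw [hjr] at hHn
    refine ⟨(Sst (u := u) (v := v) hact u).map j, (SC (G ⧸ N) u v).map j, j t, hHn, fg_map j fgA,
      hDfg, hDcm, ?_⟩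
    intro i
    obtain ⟨p, hlift⟩ := hser i
    obtain ⟨g, hg⟩ := stab_conj hact (u := u) (v := v) hX p
    rcases hg with hg | hg
    · refine ⟨j g, by rw [← hjr]; exact ⟨g, rfl⟩, ?_⟩
      intro c hc
      obtain ⟨a, rfl, ha⟩ := hlift c hc
      rw [← map_inv, ← map_mul, ← map_mul]
      exact ⟨_, hg a ha, rfl⟩
    · refine ⟨j (g * t), by rw [← hjr]; exact ⟨g * t, rfl⟩, ?_⟩
      intro c hc
      obtain ⟨a, rfl, ha⟩ := hlift c hc
      rw [← map_inv, ← map_mul, ← map_mul]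
      refine ⟨_, ?_, rfl⟩
      have h1 := conj_Sst hact ht (hg a ha)
      have h2 : (g * t)⁻¹ * a * (g * t) = t⁻¹ * (g⁻¹ * a * g) * t := by group
      rw [h2]
      exact h1

end

/-- THEOREM R FOR VERTEX GROUPS relative to finitely generated subgroups -/
theorem p_VG : S_VG := by
  intro Γ K F ι _ _ _ _ _ _ _ T ρ P I x htr hdiv hfg hnab hIP hIfg hx hle hne hI
  obtain ⟨K1, _, _, _, T1, x1, hVG, hSG, hx1⟩ := exists_vg T ρ P x htr hdiv hfg hnab hx hle hne
  exact out_gen FrR.p_R FrR.p_fgA FrR.p_fgH hVG hSG I hIP hIfg (fun i c hc => by rw [hx1]; exact hI i c hc)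

end Pool.Agent.SuRS
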