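import Pool.Agent.Lib.MP_305fdd_al.Su.S.NSG
import Pool.Agent.Lib.MP_305fdd_al.Su.RS.Out

/-!
# MP_305fdd_al, closed surface groups, relative S-machine: the step

`AdmH H0 S`: the splitting `S` is admissible and `H0` is contained in a conjugate of a vertex group.
`SminH ρ H0 S`: minimal among these.
-/

set_option autoImplicit false
set_option linter.unusedSectionVars false

namespace Pool.Agent.SuRS

open Matrix (SpecialLinearGroup)
open Pool.Agent.FrN Pool.Agent.FrAsm Pool.Agent.FrS Pool.Agent.SuS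

section

variable {Γ F : Type} [Group Γ] [Field F] [Algebra (ZMod 2) F]
  {ρ : Γ →* SpecialLinearGroup (Fin 2) F}

/-- admissible splittings in which `H0` is elliptic -/
def AdmH (H0 : Subgroup Γ) (S : GG Γ) : Prop :=
  S.Adm ∧ ∃ (v : S.V) (g : Γ), ∀ c ∈ H0, g⁻¹ * c * g ∈ S.G v

/-- minimal splittings in which `H0` is elliptic -/
def SminH (ρ : Γ →* SpecialLinearGroup (Fin 2) F) (H0 : Subgroup Γ) (S : GG Γ) : Prop :=
  AdmH H0 S ∧ ∀ S' : GG Γ, AdmH H0 S' → DD ρ S < DD ρ S' ∨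
    (DD ρ S = DD ρ S' ∧ Fintype.card S.E ≤ Fintype.card S'.E)

theorem exists_sminH (hfg : Group.FG Γ) (ρ : Γ →* SpecialLinearGroup (Fin 2) F)
    (H0 : Subgroup Γ) : ∃ S : GG Γ, SminH ρ H0 S := by
  classical
  have h0 : AdmH H0 (GG.one Γ) := ⟨GG.one_adm Γ hfg, (), 1, fun c _ => Subgroup.mem_top _⟩
  have h1 : ∃ n, ∃ S : GG Γ, AdmH H0 S ∧ DD ρ S = n := ⟨_, GG.one Γ, h0, rfl⟩
  have h2 : ∃ m, ∃ S : GG Γ, AdmH H0 S ∧ DD ρ S = Nat.find h1 ∧ Fintype.card S.E = m := by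
    obtain ⟨S, hS, hn⟩ := Nat.find_spec h1
    exact ⟨_, S, hS, hn, rfl⟩
  obtain ⟨S, hS, hn, hm⟩ := Nat.find_spec h2
  refine ⟨S, hS, fun S' hS' => ?_⟩
  have h3 : Nat.find h1 ≤ DD ρ S' := Nat.find_min' h1 ⟨S', hS', rfl⟩
  rcases lt_or_eq_of_le h3 with h | h
  · exact Or.inl (by rw [hn]; exact h)
  · exact Or.inr ⟨by rw [hn]; exact h, by
      rw [hm]; exact Nat.find_min' h2 ⟨S', hS', h.symm, rfl⟩⟩

/-- THE STEP, relative form: a splitting of a non-abelian vertex group relative to the incident edge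
groups and to the subgroup `H'` decreases the measure; `H'` and the other vertex groups are elliptic in
the new splitting. -/
theorem step_rel (hU : Wv Γ F ρ) (hT : ∀ g, tr ρ g = 0 → g = 1)
    (hfin : er (Set.univ : Set F) ≠ ⊤) (hFI : FI Γ) {S : GG Γ} (hS : S.Adm) {v : S.V} (hv : S.NA v)
    (H' : Subgroup Γ)
    (h : FrV.Out ρ (S.G v) (fun o : Option (S.E × Bool) => o.elim H' (S.inc v))) :
    ∃ S' : GG Γ, S'.Adm ∧ DD ρ S' < DD ρ S ∧ (∀ w, w ≠ v → ∃ w', S.G w ≤ S'.G w') ∧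
      ∃ w' g, ∀ c ∈ H', g⁻¹ * c * g ∈ S'.G w' := by
  rcases h with ⟨A, A', D, ham, hA, hA', hD, hDc, hAD, hAD', hI, hc, hc'⟩ |
    ⟨A, D, s, hn, hA, hD, hDc, hI⟩
  · -- amalgam
    have key : ∀ (A A' D : Subgroup Γ) (_ : IsAm (S.G v) A A' D) (_ : A.FG) (_ : A'.FG)
        (_ : D.FG) (_ : FrV.Cm D) (_ : A ≠ D) (_ : A' ≠ D)
        (_ : ∀ i : Option (S.E × Bool), ∃ g ∈ S.G v,
          (∀ c ∈ i.elim H' (S.inc v), g⁻¹ * c * g ∈ A) ∨
          (∀ c ∈ i.elim H' (S.inc v), g⁻¹ * c * g ∈ A'))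
        (_ : D ≠ ⊥ → FrV.Cm A' → ∃ b ∈ A', ¬ IsAlgebraic (Algebra.adjoin (ZMod 2)
          (trs ρ {c | ∃ i : Option (S.E × Bool), c ∈ i.elim H' (S.inc v)})) (tr ρ b))
        (_ : ¬ FrV.Cm A ∨ FrV.Cm A'), ∃ S' : GG Γ, S'.Adm ∧ DD ρ S' < DD ρ S ∧
          (∀ w, w ≠ v → ∃ w', S.G w ≤ S'.G w') ∧
          ∃ w' g, ∀ c ∈ H', g⁻¹ * c * g ∈ S'.G w' := by
      intro A A' D ham hA hA' hD hDc hAD hAD' hI hc' hor
      obtain ⟨g0, -, hg0⟩ := hI none
      obtain ⟨d, rfl, rfl, rfl⟩ := S.exists_refA v ham (fun i => hI (some i))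
      have hUP := GG.refA_up hS.toUP d
      have hGv : (S.refA v d).G (some v) = d.A := if_pos rfl
      have hD1 : d.D ≠ ⊥ := by
        intro h0
        refine GG.UP.ne_bot hUP hFI (none : Option S.E) ?_ ?_ h0
        · change (S.refA v d).G (some v) ≠ ⊥
          rw [hGv, ← h0]
          exact hAD
        · change d.A' ≠ ⊥
          rw [← h0]
          exact hAD'
      refine ⟨S.refA v d, GG.refA_adm hS d hA hA' hD hD1 hDc hAD hAD', ?_, ?_, ?_⟩
      rotate_left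
      · intro w hw
        refine ⟨some w, ?_⟩
        change S.G w ≤ (if w = v then d.A else S.G w)
        rw [if_neg hw]
      · rcases hg0 with h0 | h0
        · exact ⟨some v, g0, fun c hc => by rw [hGv]; exact h0 c hc⟩
        · exact ⟨none, g0, fun c hc => h0 c hc⟩
      by_cases hna' : FrV.Cm d.A'
      · obtain ⟨b, hb, hbt⟩ := hc' hD1 hna'
        refine drop_M hU hT hS.toUP hS.ne hS.ab hv d hD1 hDc hfin (fun h' => h' hna') hb ?_
        refine not_alg_mono ((dv_inc S v).trans ?_) hbt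
        exact Set.image_mono fun c hc => by
          obtain ⟨i, hi⟩ := hc
          exact ⟨some i, hi⟩
      · have hna : ¬ FrV.Cm d.A := hor.resolve_right hna'
        refine drop_A hU hT hS.toUP hS.ne hS.ab hv d hD1 hDc hfin ?_ hna'
        intro h'
        rw [hGv] at h'
        exact hna h'
    by_cases h1 : FrV.Cm A
    · refine key A' A D ham.symm hA' hA hD hDc hAD' hAD ?_ hc (Or.inr h1)
      intro i
      obtain ⟨g, hg, h2⟩ := hI i
      exact ⟨g, hg, h2.symm⟩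
    · exact key A A' D ham hA hA' hD hDc hAD hAD' hI hc' (Or.inl h1)
  · obtain ⟨g0, -, hg0⟩ := hI none
    obtain ⟨d, rfl, rfl, rfl⟩ := S.exists_refH v hn (fun i => hI (some i))
    have hUP := GG.refH_up hS.toUP d
    have hGv : (S.refH v d).G v = d.A := if_pos rfl
    have hA1 : d.A ≠ ⊥ := by
      intro h0
      apply hv
      have h1 := d.hn.sup
      rw [h0, bot_sup_eq] at h1
      rw [h1]
      intro x hx y hy
      obtain ⟨m, rfl⟩ := Subgroup.mem_zpowers_iff.1 hx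
      obtain ⟨n, rfl⟩ := Subgroup.mem_zpowers_iff.1 hy
      rw [← zpow_add, ← zpow_add, add_comm]
    have hD1 : d.D ≠ ⊥ := by
      intro h0
      refine GG.UP.ne_bot hUP hFI (none : Option S.E) ?_ ?_ h0
      · change (S.refH v d).G v ≠ ⊥
        rw [hGv]
        exact hA1
      · change (S.refH v d).G v ≠ ⊥
        rw [hGv]
        exact hA1
    refine ⟨S.refH v d, GG.refH_adm hS d hA hD hD1 hDc,
      drop_H hU hT hS.toUP hv d hD1 hDc hfin, ?_, ?_⟩
    · intro w hw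
      refine ⟨w, ?_⟩
      change S.G w ≤ (if w = v then d.A else S.G w)
      rw [if_neg hw]
    · exact ⟨v, g0, fun c hc => by rw [hGv]; exact hg0 c hc⟩

/-- the trace is a class function -/
theorem T_cj {K : Type} [Field K] [Algebra K F] {T : Γ → K} (H : TrD T ρ) (g c : Γ) :
    T (g⁻¹ * c * g) = T c := by
  have h := TrD.conj H g⁻¹ c
  rwa [inv_inv] at h

end

end Pool.Agent.SuRS
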